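import Pool.Agent.H51.EI.TargetsC

/-! DET of exi_modules -/

set_option autoImplicit false

namespace Pool.Agent.H64.EI.DET

open Pool.Agent.H51.EI

theorem pf_DET (hPARX : T_PARX) (hFOUR : T_FOUR) : T_DET := by
  intro O t w hD hF hR ht ht0 hw he h
  obtain ⟨π⟩ := hPARX O t w hD hR ht ht0 hw he h
  exact hFOUR O _ hD hF π

end Pool.Agent.H64.EI.DET
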